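import Pool.Agent.K3h88.Loz.Final

/-!
# Two unit-lobed intrusions in a regular hexagon: equal slit lengths need not be optimal

The growth rate `F(p, h, r)` of the number of lozenge tilings exists for all admissible parameters,
and if `(h + p / 2) * (2 - p / 2) < 1` (for example `p = 1 / 5`, `h = 1 / 10`), then
`F(p, h, 1) < F(p, h, r)` for every `r ≠ 1`: equal slits give the strict minimum.

Idea. Cutting along the line `ℓ` and using the product formula for trapezoids with dents, the number
of tilings is a sum of products of two Vandermonde products over the positions of the lozenges that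
cross `ℓ`. The lobes of the ferns alternate, so the weight in this sum is the weight of a hexagon
without ferns, and the number of tilings is a product of superfactorials divided by the product of
all distances between up-pointing lobes on one side and down-pointing lobes and corner positions on
the other side. The limit is a combination of values of `V(a) = a^2 log a / 2 - 3 a^2 / 4`; as a
function of the slit lengths `p / 2 + d`, `p / 2 - d` its second derivative is
`log (1 - d^2) - log ((a^2 - d^2) (b^2 - d^2)) / 2` with `a = h + p / 2`, `b = 2 - p / 2`, which is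
positive if `a b < 1`.
-/

set_option autoImplicit false

namespace Pool.Agent.Results.MP_0b03d8_co.EqualSlitsCanMinimize

open Filter Topology

/-! Lattice points are pairs `(a, y)`, standing for the point `a (1, 0) + y (1/2, √3/2)` of the
plane; the horizontal lattice line number `y` consists of the points with second entry `y`. -/

/-- The lattice points of the regular hexagon with side `L` whose horizontal diagonal joins the
points `(0, 0)` and `(2 L, 0)`. -/
def HexPoint (L : ℤ) (v : ℤ × ℤ) : Prop :=
  -L ≤ v.2 ∧ v.2 ≤ L ∧ 0 ≤ v.1 ∧ v.1 ≤ 2 * L ∧ 0 ≤ v.1 + v.2 ∧ v.1 + v.2 ≤ 2 * L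

/-- The up-pointing unit triangle `u = (a, y)` with the vertices `(a, y)`, `(a + 1, y)`,
`(a, y + 1)` lies in the hexagon. -/
def HexUp (L : ℤ) (u : ℤ × ℤ) : Prop :=
  HexPoint L u ∧ HexPoint L (u.1 + 1, u.2) ∧ HexPoint L (u.1, u.2 + 1)

/-- The down-pointing unit triangle `d = (a, y)` with the vertices `(a, y + 1)`, `(a + 1, y + 1)`,
`(a + 1, y)` lies in the hexagon. -/
def HexDown (L : ℤ) (d : ℤ × ℤ) : Prop :=
  HexPoint L (d.1, d.2 + 1) ∧ HexPoint L (d.1 + 1, d.2 + 1) ∧ HexPoint L (d.1 + 1, d.2)

/-- The side `L = N + M / 2`, `M = m + n`, of the hexagon. -/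
def side (N m n : ℕ) : ℕ := N + (m + n) / 2

/-- The unit segment from `a` to `a + 1` of the line `ℓ` (`y = x`) carries the lobe number `i` of
the left fern (`i < m`, counted from the left end `0` of `ℓ ∩ H`) or of the right fern (`i < n`,
counted from the right end `2 L - x`), for some `i` with `q i`. -/
def Lobe (q : ℕ → Prop) (N m n x : ℕ) (a : ℤ) : Prop :=
  (∃ i : ℕ, i < m ∧ q i ∧ a = i) ∨
    (∃ i : ℕ, i < n ∧ q i ∧ a = 2 * (side N m n : ℤ) - x - 1 - i)

/-- The up-pointing triangles of the region: those of the hexagon except the up-pointing lobes,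
which sit above `ℓ` with their base on `ℓ` (the lobes number `0, 2, 4, ...` point up). -/
def upTriangles (N m n x : ℕ) : Set (ℤ × ℤ) :=
  {u | HexUp (side N m n) u ∧ ¬ (u.2 = x ∧ Lobe (fun i => Even i) N m n x u.1)}

/-- The down-pointing triangles of the region: those of the hexagon except the down-pointing lobes,
which sit below `ℓ` with their top side on `ℓ`. -/
def downTriangles (N m n x : ℕ) : Set (ℤ × ℤ) :=
  {d | HexDown (side N m n) d ∧ ¬ (d.2 + 1 = x ∧ Lobe (fun i => Odd i) N m n x d.1)}

/-- The up-pointing triangle `u` and the down-pointing triangle `d` have a common edge. -/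
def CommonEdge (u d : ℤ × ℤ) : Prop := d = (u.1, u.2 - 1) ∨ d = (u.1 - 1, u.2) ∨ d = u

/-- Lozenge tilings: sets of lozenges (pairs of an up-pointing and a down-pointing triangle with a
common edge) which cover every triangle of the region exactly once and no other triangle. -/
def IsTiling (up dn : Set (ℤ × ℤ)) (τ : Set ((ℤ × ℤ) × (ℤ × ℤ))) : Prop :=
  (∀ l ∈ τ, l.1 ∈ up ∧ l.2 ∈ dn ∧ CommonEdge l.1 l.2) ∧ (∀ u ∈ up, ∃! d, (u, d) ∈ τ) ∧
    (∀ d ∈ dn, ∃! u, (u, d) ∈ τ)

/-- The number `T(N, m, n, x)` of lozenge tilings of the region. -/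
noncomputable def numTilings (N m n x : ℕ) : ℕ :=
  Nat.card {τ : Set ((ℤ × ℤ) × (ℤ × ℤ)) //
    IsTiling (upTriangles N m n x) (downTriangles N m n x) τ}

/-- Parameter sequences with `m`, `n` even, `x ≤ N`, `L → ∞`, `M / L → p`, `x / L → h` and
`m / n → r`. -/
def Admissible (p h r : ℝ) (N m n x : ℕ → ℕ) : Prop :=
  (∀ i, Even (m i)) ∧ (∀ i, Even (n i)) ∧ (∀ i, x i ≤ N i) ∧
    Tendsto (fun i => side (N i) (m i) (n i)) atTop atTop ∧
    Tendsto (fun i => ((m i : ℝ) + n i) / side (N i) (m i) (n i)) atTop (𝓝 p) ∧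
    Tendsto (fun i => (x i : ℝ) / side (N i) (m i) (n i)) atTop (𝓝 h) ∧
    Tendsto (fun i => (m i : ℝ) / n i) atTop (𝓝 r)

/-- `f` is the growth rate `F(p, h, r)`: admissible sequences exist, and `log T / L ^ 2` tends to
`f` along each of them. -/
def IsGrowthRate (p h r f : ℝ) : Prop :=
  (∃ N m n x : ℕ → ℕ, Admissible p h r N m n x) ∧
    ∀ N m n x : ℕ → ℕ, Admissible p h r N m n x →
      Tendsto (fun i => Real.log (numTilings (N i) (m i) (n i) (x i)) /
        (side (N i) (m i) (n i) : ℝ) ^ 2) atTop (𝓝 f)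

/-- For all `0 < p < 2` and `0 < h ≤ 1 - p / 2` the growth rate `F(p, h, r)` exists for every
`r > 0`; and if `(h + p / 2) * (2 - p / 2) < 1`, then `F(p, h, 1) < F(p, h, r)` for every
`r ≠ 1`. -/
theorem result (p h : ℝ) (hp : 0 < p) (hp2 : p < 2) (hh : 0 < h) (hhp : h ≤ 1 - p / 2) :
    ∃ F : ℝ → ℝ, (∀ r, 0 < r → IsGrowthRate p h r (F r)) ∧
      ((h + p / 2) * (2 - p / 2) < 1 → ∀ r, 0 < r → r ≠ 1 → F 1 < F r) := by
  refine ⟨fun r => Pool.Agent.K3h88.Loz.Phi p h r, ?_, ?_⟩
  · intro r hr
    exact ⟨Pool.Agent.K3h88.Loz.exists_adm p h r hp hp2 hh hhp hr,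
      fun N m n x hA => Pool.Agent.K3h88.Loz.limit p h r hp hp2 hh hhp hr N m n x hA⟩
  · intro hab r hr hr1
    exact Pool.Agent.K3h88.Loz.strict p h r hp hp2 hh hhp hab hr hr1

end Pool.Agent.Results.MP_0b03d8_co.EqualSlitsCanMinimize
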